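import Pool.Agent.Q155.GN.Stm2

/-!
# Project GN, jobs LQ and LJ: the common part
-/

set_option autoImplicit false
set_option linter.unusedVariables false

namespace Pool.Agent.Q175.GN

open Finset Filter Topology
open H385 (ZI nrm)
open Pool.Agent.Y699 (PP)
open Q155.GN
open Q155.KT (kz z2_all z2_dbl)
open Pool.Agent.Q1.PT (avg avg_equiv avg_prod avg_mono avg_const avg_add avg_sub abs_avg avg_hom)
open scoped Classical

theorem avg_inst' {α : Type} (i j : Fintype α) (g : α → ℝ) : @avg α i g = @avg α j g := by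
  cases Subsingleton.elim i j
  rfl

/-- the mean over the matrices -/
noncomputable def aX {ι : Type} [Fintype ι] (g : (ι → ι → ZMod 2) → ℝ) : ℝ := avg g

theorem sd_union {S₀ W V P : Finset ZI} (hV : V ⊆ W) (hP : ∀ x ∈ P, x ∉ S₀ ∪ W) :
    symmDiff (S₀ ∪ P) V = symmDiff S₀ V ∪ P := by
  ext x
  have h1 : x ∈ V → x ∈ W := fun h => hV h
  have h2 : x ∈ P → x ∉ W := fun h h' => hP x h (Finset.mem_union_right _ h')
  simp only [Finset.mem_symmDiff, Finset.mem_union]
  tauto

theorem sd_sub {S₀ W V : Finset ZI} (hV : V ⊆ W) : symmDiff S₀ V ⊆ S₀ ∪ W := by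
  intro x hx
  rw [Finset.mem_symmDiff] at hx
  rw [Finset.mem_union]
  rcases hx with hx | hx
  · exact Or.inl hx.1
  · exact Or.inr (hV hx.1)

section
variable {ι : Type} [Fintype ι] [LinearOrder ι]

theorem mem_prs' {e : ι × ι} : e ∈ prs ι ↔ e.1 < e.2 := by
  unfold prs
  rw [Finset.mem_filter]
  exact and_iff_right (Finset.mem_univ _)

/-- the extension of a table of symbols -/
noncomputable def xt (α : prs ι → ZMod 2) : ι → ι → ZMod 2 :=
  fun i l => if h : (i, l) ∈ prs ι then α ⟨(i, l), h⟩ else 0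

theorem xt_add (g : ι → ι → ZMod 2) (hg : ∀ i l, g i l = g l i) {i l : ι} (hil : i ≠ l) :
    xt (fun e : prs ι => g e.1.1 e.1.2) i l + xt (fun e : prs ι => g e.1.1 e.1.2) l i = g i l := by
  unfold xt
  rcases lt_or_gt_of_ne hil with h | h
  · have h1 : (i, l) ∈ prs ι := mem_prs'.2 h
    have h2 : (l, i) ∉ prs ι := fun h' => lt_asymm h (mem_prs'.1 h')
    rw [dif_pos h1, dif_neg h2, add_zero]
  · have h1 : (l, i) ∈ prs ι := mem_prs'.2 h
    have h2 : (i, l) ∉ prs ι := fun h' => lt_asymm h (mem_prs'.1 h')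
    rw [dif_neg h2, dif_pos h1, zero_add]
    exact hg l i

/-- the homomorphism to the tables of symbols -/
noncomputable def φp (ι : Type) [Fintype ι] [LinearOrder ι] : (ι → ι → ZMod 2) →+ (prs ι → ZMod 2) where
  toFun x := fun e => x e.1.1 e.1.2 + x e.1.2 e.1.1
  map_zero' := by
    funext e
    exact add_zero _
  map_add' x y := by
    funext e
    show (x e.1.1 e.1.2 + y e.1.1 e.1.2) + (x e.1.2 e.1.1 + y e.1.2 e.1.1) =
      (x e.1.1 e.1.2 + x e.1.2 e.1.1) + (y e.1.1 e.1.2 + y e.1.2 e.1.1)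
    ring

theorem φp_surj : Function.Surjective (φp ι) := by
  intro α
  refine ⟨xt α, ?_⟩
  funext e
  show xt α e.1.1 e.1.2 + xt α e.1.2 e.1.1 = α e
  obtain ⟨⟨i, l⟩, h⟩ := e
  have h' : (l, i) ∉ prs ι := fun h' => lt_asymm (mem_prs'.1 h) (mem_prs'.1 h')
  unfold xt
  show (if h : (i, l) ∈ prs ι then α ⟨(i, l), h⟩ else 0) +
    (if h : (l, i) ∈ prs ι then α ⟨(l, i), h⟩ else 0) = _
  rw [dif_pos h, dif_neg h', add_zero]

end

section
variable {ι : Type} [Fintype ι] {W S₀ : Finset ZI} {q : ι → ZI}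

/-- the symbols of the large primes -/
noncomputable def vT (T : Finset ZI) (q : ι → ZI) : ι → ↥T → ZMod 2 := fun i u => s u (q i)

/-- the symbols of the small primes -/
noncomputable def mT (T : Finset ZI) : Matrix ↥T ↥T (ZMod 2) := Matrix.of fun u u' : ↥T => s u u'

/-- the regularity for the matrices -/
theorem reg_L {L : ℕ} (hR : RN L (S₀ ∪ W) (univ.image q))
    {T : Finset ZI} (hT : T ⊆ S₀ ∪ W) (w : ↥T → ZMod 2) (hw : w ≠ 0) :
    L ≤ (univ.filter fun i => ∑ r, w r * vT T q i r ≠ 0).card := by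
  have hinj : Function.Injective (Subtype.val : ↥T → ZI) := Subtype.val_injective
  set w' : Finset ZI := Finset.image (Subtype.val : ↥T → ZI)
    (univ.filter fun u : ↥T => w u ≠ 0) with hw'
  have h1 : w' ⊆ S₀ ∪ W := by
    intro u hu
    obtain ⟨u', -, rfl⟩ := Finset.mem_image.1 hu
    exact hT u'.2
  have h2 : w'.Nonempty := by
    obtain ⟨u, hu⟩ := Function.ne_iff.1 hw
    exact ⟨u, Finset.mem_image_of_mem _ (Finset.mem_filter.2 ⟨Finset.mem_univ _, hu⟩)⟩
  refine (hR w' h1 h2).trans ?_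
  have h4 : ∀ n : ZI, ∑ u ∈ w', s u n = ∑ r : ↥T, w r * s r n := by
    intro n
    rw [hw', Finset.sum_image fun a _ b _ h => hinj h, Finset.sum_filter]
    refine Finset.sum_congr rfl fun r _ => ?_
    rcases z2_all (w r) with h | h
    · rw [h, if_neg (fun h' => h' rfl), zero_mul]
    · rw [h, if_pos one_ne_zero, one_mul]
  have h5 : ((univ.image q).filter fun π => ∑ u ∈ w', s u π ≠ 0) ⊆
      (univ.filter fun i => ∑ r, w r * vT T q i r ≠ 0).image q := by
    intro n hn
    obtain ⟨h6, h8⟩ := Finset.mem_filter.1 hn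
    obtain ⟨i, -, rfl⟩ := Finset.mem_image.1 h6
    refine Finset.mem_image_of_mem _ (Finset.mem_filter.2 ⟨Finset.mem_univ _, ?_⟩)
    rw [h4] at h8
    exact h8
  exact (Finset.card_le_card h5).trans Finset.card_image_le

theorem reg_odd {L : ℕ} (h : L ≤ ((univ.image q).filter fun π => fc π = 1 ∨ fc π = 3).card) :
    L ≤ (univ.filter fun i => fc (q i) = 1 ∨ fc (q i) = 3).card := by
  refine h.trans ?_
  have h5 : ((univ.image q).filter fun π => fc π = 1 ∨ fc π = 3) ⊆
      (univ.filter fun i => fc (q i) = 1 ∨ fc (q i) = 3).image q := by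
    intro n hn
    obtain ⟨h6, h7⟩ := Finset.mem_filter.1 hn
    obtain ⟨i, -, rfl⟩ := Finset.mem_image.1 h6
    exact Finset.mem_image_of_mem _ (Finset.mem_filter.2 ⟨Finset.mem_univ _, h7⟩)
  exact (Finset.card_le_card h5).trans Finset.card_image_le

theorem mT_symm (hS : SymP) {T : Finset ZI} (h : ∀ u ∈ T, PP u) : (mT T).IsSymm := by
  ext a b
  show s b a = s a b
  exact hS.symm _ _ (h b b.2) (h a a.2)

end

end Pool.Agent.Q175.GN
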