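import Pool.Agent.Q175.GN.Bs

/-!
# Project GN, job LJ: the joint law of the coranks
-/

set_option autoImplicit false
set_option linter.unusedVariables false

namespace Pool.Agent.Q175.GN

open Finset Filter Topology Module
open H385 (ZI nrm)
open Pool.Agent.Y699 (PP)
open Q155.GN
open Q155.KT (kz z2_all z2_dbl)
open Q155.KG (al)
open Q283.GM (KM mem_KM cR t_LA)
open Pool.Agent.Q1.PT (avg avg_hom)
open scoped Classical

/-- the part of the set -/
noncomputable def pt (S₁ A : Finset ZI) : Finset S₁ := univ.filter fun u : S₁ => (u : ZI) ∈ A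

theorem mem_pt {S₁ A : Finset ZI} (u : S₁) : u ∈ pt S₁ A ↔ (u : ZI) ∈ A := by
  unfold pt
  rw [Finset.mem_filter]
  exact and_iff_right (Finset.mem_univ _)

theorem sum_pt {S₁ T : Finset ZI} (hT : T ⊆ S₁) (h : ZI → ZMod 2) :
    ∑ x ∈ T, h x = ∑ u ∈ pt S₁ T, h u := by
  unfold pt
  rw [Finset.sum_filter, Finset.sum_coe_sort S₁ (fun x => if x ∈ T then h x else 0),
    Finset.sum_ite_mem, Finset.inter_eq_right.2 hT]

theorem add_pt {S₁ A B : Finset ZI} (h : S₁ → ZMod 2) :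
    ∑ u ∈ pt S₁ A, h u + ∑ u ∈ pt S₁ B, h u = ∑ u ∈ pt S₁ (symmDiff A B), h u := by
  unfold pt
  rw [Finset.sum_filter, Finset.sum_filter, Finset.sum_filter, ← Finset.sum_add_distrib]
  refine Finset.sum_congr rfl fun u _ => ?_
  by_cases h1 : (u : ZI) ∈ A
  · by_cases h2 : (u : ZI) ∈ B
    · have h3 : (u : ZI) ∉ symmDiff A B := by
        rw [Finset.mem_symmDiff]
        tauto
      rw [if_pos h1, if_pos h2, if_neg h3]
      exact CharTwo.add_self_eq_zero _
    · have h3 : (u : ZI) ∈ symmDiff A B := by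
        rw [Finset.mem_symmDiff]
        tauto
      rw [if_pos h1, if_neg h2, if_pos h3, add_zero]
  · by_cases h2 : (u : ZI) ∈ B
    · have h3 : (u : ZI) ∈ symmDiff A B := by
        rw [Finset.mem_symmDiff]
        tauto
      rw [if_neg h1, if_pos h2, if_pos h3, zero_add]
    · have h3 : (u : ZI) ∉ symmDiff A B := by
        rw [Finset.mem_symmDiff]
        tauto
      rw [if_neg h1, if_neg h2, if_neg h3, add_zero]

theorem sd_sd (S₀ U V : Finset ZI) : symmDiff (symmDiff S₀ U) (symmDiff S₀ V) = symmDiff U V := by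
  ext x
  simp only [Finset.mem_symmDiff]
  tauto

/-! ### the kernel of the Laplacian -/

section
variable {S : Finset ZI}

theorem sum_all (hS : SymP) (hP : ∀ u ∈ S, PP u) (x : ZI → ZMod 2) :
    ∑ π ∈ S, ∑ ρ ∈ S, s π ρ * (x ρ + x π) = 0 := by
  have h1 : ∑ π ∈ S, ∑ ρ ∈ S, s π ρ * (x ρ + x π) =
      ∑ π ∈ S, ∑ ρ ∈ S, s π ρ * x ρ + ∑ π ∈ S, ∑ ρ ∈ S, s π ρ * x π := by
    rw [← Finset.sum_add_distrib]
    refine Finset.sum_congr rfl fun π _ => ?_
    rw [← Finset.sum_add_distrib]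
    exact Finset.sum_congr rfl fun ρ _ => mul_add _ _ _
  have h2 : ∑ π ∈ S, ∑ ρ ∈ S, s π ρ * x π = ∑ π ∈ S, ∑ ρ ∈ S, s π ρ * x ρ := by
    rw [Finset.sum_comm]
    refine Finset.sum_congr rfl fun π hπ => Finset.sum_congr rfl fun ρ hρ => ?_
    rw [hS.symm ρ π (hP ρ hρ) (hP π hπ)]
  rw [h1, h2]
  exact z2_dbl _

/-- the equation of the root follows from the other ones -/
theorem root_eq (hS : SymP) (hP : ∀ u ∈ S, PP u) {b : ZI} (hb : b ∈ S) {x : ZI → ZMod 2}
    (h : ∀ π ∈ S, π ≠ b → ∑ ρ ∈ S, s π ρ * (x ρ + x π) = 0) :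
    ∑ ρ ∈ S, s b ρ * (x ρ + x b) = 0 := by
  have h1 := sum_all hS hP x
  rw [← Finset.add_sum_erase S _ hb] at h1
  have h2 : ∑ π ∈ S.erase b, ∑ ρ ∈ S, s π ρ * (x ρ + x π) = 0 :=
    Finset.sum_eq_zero fun π hπ => h π (Finset.mem_of_mem_erase hπ) (Finset.ne_of_mem_erase hπ)
  rw [h2, add_zero] at h1
  exact h1

/-- the constant function -/
noncomputable def cst (S : Finset ZI) : ZI → ZMod 2 := fun n => if n ∈ S then 1 else 0

theorem cst_mem : cst S ∈ Kl S := by
  rw [mem_Kl]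
  refine ⟨fun π hπ => if_neg hπ, fun π hπ => Finset.sum_eq_zero fun ρ hρ => ?_⟩
  unfold cst
  rw [if_pos hπ, if_pos hρ, z2_dbl, mul_zero]

/-- evaluation at a point -/
noncomputable def evl (S : Finset ZI) (b : ZI) : Kl S →ₗ[ZMod 2] ZMod 2 where
  toFun x := (x : ZI → ZMod 2) b
  map_add' _ _ := rfl
  map_smul' _ _ := rfl

theorem fin_Kl : Module.Finite (ZMod 2) (Kl S) := by
  let g : Kl S →ₗ[ZMod 2] (↥S → ZMod 2) :=
    { toFun := fun x u => (x : ZI → ZMod 2) u
      map_add' := fun _ _ => rfl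
      map_smul' := fun _ _ => rfl }
  refine Module.Finite.of_injective g fun x y hxy => ?_
  refine Subtype.ext (funext fun n => ?_)
  by_cases hn : n ∈ S
  · exact congrFun hxy ⟨n, hn⟩
  · rw [(mem_Kl.1 x.2).1 n hn, (mem_Kl.1 y.2).1 n hn]

theorem bb_eq {b : ZI} (hb : b ∈ S) : bb S = finrank (ZMod 2) (LinearMap.ker (evl S b)) := by
  have := fin_Kl (S := S)
  have h1 := LinearMap.finrank_range_add_finrank_ker (evl S b)
  have h2 : LinearMap.range (evl S b) = ⊤ := by
    rw [LinearMap.range_eq_top]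
    intro c
    refine ⟨c • ⟨cst S, cst_mem⟩, ?_⟩
    rw [map_smul]
    show c * (if b ∈ S then 1 else 0) = c
    rw [if_pos hb, mul_one]
  rw [h2, finrank_top, Module.finrank_self] at h1
  unfold bb
  omega

end

section
variable {ι : Type} [Fintype ι] {S₁ T : Finset ZI} {p : ι → ZI}

theorem sum_TU (hT : T ⊆ S₁) (hp : Function.Injective p) (hd : ∀ i, p i ∉ S₁) (h : ZI → ZMod 2) :
    ∑ x ∈ T ∪ univ.image p, h x = ∑ u ∈ pt S₁ T, h u + ∑ l, h (p l) := by
  rw [Finset.sum_union, Finset.sum_image fun a _ b _ hab => hp hab, sum_pt hT]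
  rw [Finset.disjoint_left]
  intro x hx hx'
  obtain ⟨i, -, rfl⟩ := Finset.mem_image.1 hx'
  exact hd i (hT hx)

/-- the restriction -/
noncomputable def rs (S₁ : Finset ZI) (p : ι → ZI) :
    (ZI → ZMod 2) →ₗ[ZMod 2] ((S₁ → ZMod 2) × (ι → ZMod 2)) where
  toFun x := (fun u => x u, fun i => x (p i))
  map_add' := by
    intro x y
    rfl
  map_smul' := by
    intro c x
    rfl

/-- the corank as the dimension of the kernel of the block system -/
theorem bb_KM (hS : SymP) (hT : T ⊆ S₁) (hS₁ : ∀ u ∈ S₁, PP u) (hp : Tu S₁ p) (i₀ : ι) {J1 : Finset ι}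
    (hJ : ∀ k, k ∈ J1 ↔ k ≠ i₀) {E : ι → ι → ZMod 2} (hE : ∀ k l, k ≠ i₀ → k ≠ l → E k l = s (p k) (p l)) :
    bb (T ∪ univ.image p) = finrank (ZMod 2) (KM (pt S₁ T) univ J1
      (fun u v : S₁ => s u v) (fun (u : S₁) l => s u (p l)) (fun k (u : S₁) => s u (p k)) E
      (fun _ => 0) (fun _ => 0)) := by
  obtain ⟨hinj, hp2⟩ := hp
  have hd : ∀ i, p i ∉ S₁ := fun i => (hp2 i).2
  have hPP : ∀ u ∈ T ∪ univ.image p, PP u := by
    intro u hu
    rcases Finset.mem_union.1 hu with h | h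
    · exact hS₁ u (hT h)
    · obtain ⟨i, -, rfl⟩ := Finset.mem_image.1 h
      exact (hp2 i).1
  have hb : p i₀ ∈ T ∪ univ.image p :=
    Finset.mem_union_right _ (Finset.mem_image_of_mem _ (Finset.mem_univ _))
  have hEs : ∀ (k : ι) (y : ι → ZMod 2) (yk : ZMod 2), k ≠ i₀ → y k = yk →
      ∑ l, E k l * (y l + yk) = ∑ l, s (p k) (p l) * (y l + yk) := by
    intro k y yk hk hyk
    refine Finset.sum_congr rfl fun l _ => ?_
    by_cases hkl : k = l
    · subst hkl
      rw [hyk, z2_dbl, mul_zero, mul_zero]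
    · rw [hE k l hk hkl]
  set KK := KM (pt S₁ T) univ J1
      (fun u v : S₁ => s u v) (fun (u : S₁) l => s u (p l)) (fun k (u : S₁) => s u (p k)) E
      (fun _ => 0) (fun _ => 0) with hKK
  rw [bb_eq hb]
  set KR := LinearMap.ker (evl (T ∪ univ.image p) (p i₀)) with hKR
  have h0 : ∀ x : KR, rs S₁ p ((x : Kl (T ∪ univ.image p)) : ZI → ZMod 2) ∈ KK := by
    rintro ⟨⟨x, hx⟩, hx0⟩
    rw [mem_Kl] at hx
    have hx0' : x (p i₀) = 0 := hx0
    show rs S₁ p x ∈ KK
    rw [hKK, mem_KM]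
    refine ⟨⟨fun u hu => absurd (Finset.mem_univ u) hu, fun u hu => ?_, fun k hk => ?_⟩,
      fun u _ hm => ?_, fun k hk => ?_⟩
    · refine hx.1 u fun h => ?_
      rcases Finset.mem_union.1 h with h1 | h1
      · exact hu ((mem_pt u).2 h1)
      · obtain ⟨i, -, hi⟩ := Finset.mem_image.1 h1
        exact hd i (hi ▸ u.2)
    · have hk' : k = i₀ := by
        by_contra hne
        exact hk ((hJ k).2 hne)
      rw [hk']
      exact hx0'
    · have h1 := hx.2 u (Finset.mem_union_left _ ((mem_pt u).1 hm))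
      rw [sum_TU hT hinj hd] at h1
      rw [zero_mul, add_zero]
      exact h1
    · have hk' := (hJ k).1 hk
      have h1 := hx.2 (p k) (Finset.mem_union_right _
        (Finset.mem_image_of_mem _ (Finset.mem_univ _)))
      rw [sum_TU hT hinj hd] at h1
      rw [zero_mul, add_zero, hEs k (rs S₁ p x).2 _ hk' rfl]
      have h2 : ∑ u ∈ pt S₁ T, s (u : ZI) (p k) * ((rs S₁ p x).1 u + (rs S₁ p x).2 k) =
          ∑ u ∈ pt S₁ T, s (p k) (u : ZI) * (x (u : ZI) + x (p k)) := by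
        refine Finset.sum_congr rfl fun u _ => ?_
        rw [hS.symm (p k) (u : ZI) (hp2 k).1 (hS₁ (u : ZI) u.2)]
        rfl
      rw [h2]
      exact h1
  let G : KR →ₗ[ZMod 2] KK := LinearMap.codRestrict KK
    ((rs S₁ p).comp ((Kl (T ∪ univ.image p)).subtype.comp KR.subtype)) h0
  refine LinearEquiv.finrank_eq (LinearEquiv.ofBijective G ⟨?_, ?_⟩)
  · intro x y hxy
    have h1 : rs S₁ p ((x : Kl (T ∪ univ.image p)) : ZI → ZMod 2) =
        rs S₁ p ((y : Kl (T ∪ univ.image p)) : ZI → ZMod 2) := congrArg Subtype.val hxy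
    refine Subtype.ext (Subtype.ext (funext fun n => ?_))
    by_cases hn : n ∈ T ∪ univ.image p
    · rcases Finset.mem_union.1 hn with h2 | h2
      · exact congrFun (congrArg Prod.fst h1) (⟨n, hT h2⟩ : S₁)
      · obtain ⟨i, -, rfl⟩ := Finset.mem_image.1 h2
        exact congrFun (congrArg Prod.snd h1) i
    · rw [(mem_Kl.1 x.1.2).1 n hn, (mem_Kl.1 y.1.2).1 n hn]
  · rintro ⟨w, hw⟩
    rw [hKK, mem_KM] at hw
    obtain ⟨⟨hw1, hw2, hw3⟩, hw4, hw5⟩ := hw
    set c' : ZI → ZMod 2 := fun n => if h : n ∈ S₁ then w.1 ⟨n, h⟩ else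
      if h : ∃ l, p l = n then w.2 h.choose else 0 with hc'
    have e1 : ∀ u : S₁, c' u = w.1 u := by
      intro u
      simp only [hc']
      rw [dif_pos u.2]
    have e2 : ∀ l, c' (p l) = w.2 l := by
      intro l
      have hex : ∃ l', p l' = p l := ⟨l, rfl⟩
      simp only [hc']
      rw [dif_neg (hd l), dif_pos hex]
      exact congrArg w.2 (hinj hex.choose_spec)
    have hr : rs S₁ p c' = w := Prod.ext (funext e1) (funext e2)
    have hc0 : c' (p i₀) = 0 := by
      rw [e2]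
      exact hw3 i₀ fun h => (hJ i₀).1 h rfl
    have hne : ∀ π ∈ T ∪ univ.image p, π ≠ p i₀ →
        ∑ ρ ∈ T ∪ univ.image p, s π ρ * (c' ρ + c' π) = 0 := by
      intro π hπ hne
      rw [sum_TU hT hinj hd]
      rcases Finset.mem_union.1 hπ with h1 | h1
      · have h2 := hw4 ⟨π, hT h1⟩ (Finset.mem_univ _) ((mem_pt _).2 h1)
        have h3 : c' π = w.1 ⟨π, hT h1⟩ := e1 ⟨π, hT h1⟩
        rw [zero_mul, add_zero] at h2
        simp only [e1, e2, h3]
        exact h2
      · obtain ⟨k, -, rfl⟩ := Finset.mem_image.1 h1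
        have hk : k ≠ i₀ := fun h => hne (by rw [h])
        have h2 := hw5 k ((hJ k).2 hk)
        rw [zero_mul, add_zero, hEs k w.2 _ hk rfl] at h2
        have h3 : ∑ u ∈ pt S₁ T, s (p k) (u : ZI) * (c' (u : ZI) + c' (p k)) =
            ∑ u ∈ pt S₁ T, s (u : ZI) (p k) * (w.1 u + w.2 k) := by
          refine Finset.sum_congr rfl fun u _ => ?_
          rw [hS.symm (p k) (u : ZI) (hp2 k).1 (hS₁ (u : ZI) u.2), e1, e2]
        rw [h3]
        simp only [e2]
        exact h2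
    have hmem : c' ∈ Kl (T ∪ univ.image p) := by
      rw [mem_Kl]
      refine ⟨fun n hn => ?_, fun n hn => ?_⟩
      · by_cases h1 : n ∈ S₁
        · have h2 := e1 ⟨n, h1⟩
          change c' n = _ at h2
          rw [h2]
          exact hw2 _ fun h4 => hn (Finset.mem_union_left _ ((mem_pt _).1 h4))
        · by_cases h2 : ∃ l, p l = n
          · obtain ⟨l, rfl⟩ := h2
            exact absurd (Finset.mem_union_right _ (Finset.mem_image_of_mem _ (Finset.mem_univ _))) hn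
          · simp only [hc']
            rw [dif_neg h1, dif_neg h2]
      · by_cases h1 : n = p i₀
        · rw [h1]
          exact root_eq hS hPP hb hne
        · exact hne n hn h1
    exact ⟨⟨⟨c', hmem⟩, hc0⟩, Subtype.ext hr⟩

end

/-! ### the tables -/

section
variable {ι : Type} [Fintype ι] [LinearOrder ι] {J1 : Finset ι}

theorem mem_prsC {e : ι × ι} : e ∈ Pool.Agent.Y703.CQ.prs J1 ↔
    e.1 ∈ J1 ∧ e.2 ≠ e.1 ∧ (e.2 ∈ J1 → e.1 < e.2) := by
  unfold Pool.Agent.Y703.CQ.prs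
  rw [Finset.mem_filter]
  exact and_iff_right (Finset.mem_univ _)

/-- the homomorphism to the other tables -/
noncomputable def φq (J1 : Finset ι) : (ι → ι → ZMod 2) →+ (Pool.Agent.Y703.CQ.prs J1 → ZMod 2) where
  toFun x := fun e => x e.1.1 e.1.2 + x e.1.2 e.1.1
  map_zero' := by
    funext e
    exact add_zero _
  map_add' x y := by
    funext e
    show (x e.1.1 e.1.2 + y e.1.1 e.1.2) + (x e.1.2 e.1.1 + y e.1.2 e.1.1) =
      (x e.1.1 e.1.2 + x e.1.2 e.1.1) + (y e.1.1 e.1.2 + y e.1.2 e.1.1)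
    ring

theorem φq_surj (J1 : Finset ι) : Function.Surjective (φq J1) := by
  intro α
  refine ⟨fun i l => if h : (i, l) ∈ Pool.Agent.Y703.CQ.prs J1 then α ⟨(i, l), h⟩ else 0, ?_⟩
  funext e
  obtain ⟨⟨i, l⟩, h⟩ := e
  have h' : (l, i) ∉ Pool.Agent.Y703.CQ.prs J1 := by
    intro h'
    obtain ⟨h1, -, h3⟩ := mem_prsC.1 h
    obtain ⟨k1, -, k3⟩ := mem_prsC.1 h'
    exact lt_asymm (h3 k1) (k3 h1)
  show (if h : (i, l) ∈ Pool.Agent.Y703.CQ.prs J1 then α ⟨(i, l), h⟩ else 0) +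
    (if h : (l, i) ∈ Pool.Agent.Y703.CQ.prs J1 then α ⟨(l, i), h⟩ else 0) = _
  rw [dif_pos h, dif_neg h', add_zero]

/-- the table of the other kind -/
noncomputable def tq (J1 : Finset ι) (α : prs ι → ZMod 2) : Pool.Agent.Y703.CQ.prs J1 → ZMod 2 :=
  fun e => xt α e.1.1 e.1.2 + xt α e.1.2 e.1.1

theorem avg_card {α : Type} [Fintype α] (Q : α → Prop) :
    avg (fun a => if Q a then (1 : ℝ) else 0) = ((univ.filter Q).card : ℝ) / Fintype.card α := by
  unfold avg
  rw [Finset.sum_ite, Finset.sum_const_zero, add_zero, Finset.sum_const, nsmul_eq_mul, mul_one]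

theorem card_inst {α : Type} {F : Finset α} {P : α → Prop} (h1 h2 : DecidablePred P) :
    (@Finset.filter α P h1 F).card = (@Finset.filter α P h2 F).card := by
  cases Subsingleton.elim h1 h2
  rfl

theorem share_eq (J1 : Finset ι) (Q : (Pool.Agent.Y703.CQ.prs J1 → ZMod 2) → Prop) :
    ((univ.filter fun α : prs ι → ZMod 2 => Q (tq J1 α)).card : ℝ) / 2 ^ (prs ι).card =
      ((univ.filter Q).card : ℝ) / 2 ^ (Pool.Agent.Y703.CQ.prs J1).card := by
  have c1 : (Fintype.card (prs ι → ZMod 2) : ℝ) = 2 ^ (prs ι).card := by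
    rw [Fintype.card_fun, ZMod.card, Fintype.card_coe]
    push_cast
    rfl
  have c2 : (Fintype.card (Pool.Agent.Y703.CQ.prs J1 → ZMod 2) : ℝ) =
      2 ^ (Pool.Agent.Y703.CQ.prs J1).card := by
    rw [Fintype.card_fun, ZMod.card, Fintype.card_coe]
    push_cast
    rfl
  rw [← c1, ← c2, ← avg_card, ← avg_card]
  rw [← avg_hom (φp ι) φp_surj (fun α => if Q (tq J1 α) then (1 : ℝ) else 0),
    ← avg_hom (φq J1) (φq_surj J1) (fun α => if Q α then (1 : ℝ) else 0)]
  have h1 : ∀ x : ι → ι → ZMod 2, tq J1 (φp ι x) = φq J1 x := by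
    intro x
    funext e
    have hne : e.1.1 ≠ e.1.2 := fun h => (mem_prsC.1 e.2).2.1 h.symm
    exact xt_add (fun i l => x i l + x l i) (fun _ _ => add_comm _ _) hne
  simp_rw [h1]

end

/-- **JOB GN-LJ** -/
theorem lj : S_LJ := by
  intro hS κ V W M U r hUinj hUW hW ε hε
  obtain ⟨R₀, hLA⟩ := t_LA M r ε hε
  refine ⟨3, R₀ + 2, ?_⟩
  intro ι _ _ S₀ q hS₀ ht hN
  have hRg : Rg 3 (R₀ + 2) W S₀ (univ.image q) := hN.2
  have hS₁ : ∀ u ∈ S₀ ∪ W, PP u := by
    intro u hu
    rcases Finset.mem_union.1 hu with h1 | h1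
    · exact hS₀ u h1
    · exact hW u h1
  have hodd := reg_odd hRg.2
  have hcard : 3 * (S₀ ∪ W).card + (R₀ + 2) ≤ Fintype.card ι := hodd.trans (Finset.card_le_univ _)
  have hne : Nonempty ι := Fintype.card_pos_iff.1 (by omega)
  obtain ⟨i₀⟩ := hne
  have herase : ∀ (P : ι → Prop) [DecidablePred P],
      (univ.filter P).card ≤ ((univ.erase i₀).filter P).card + 1 := by
    intro P _
    have h1 : univ.filter P ⊆ insert i₀ ((univ.erase i₀).filter P) := by
      intro i hi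
      by_cases h : i = i₀
      · rw [h]
        exact Finset.mem_insert_self _ _
      · exact Finset.mem_insert_of_mem (Finset.mem_filter.2
          ⟨Finset.mem_erase.2 ⟨h, Finset.mem_univ _⟩, (Finset.mem_filter.1 hi).2⟩)
    exact (Finset.card_le_card h1).trans (Finset.card_insert_le _ _)
  have hUc : (univ : Finset ↥(S₀ ∪ W)).card = (S₀ ∪ W).card := by
    rw [Finset.card_univ, Fintype.card_coe]
  obtain ⟨Q', hQ'⟩ : ∃ Q' : (Pool.Agent.Y703.CQ.prs (univ.erase i₀) → ZMod 2) → Prop, ∀ α, Q' α ↔ ∀ k,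
    finrank (ZMod 2) (KM (pt (S₀ ∪ W) (symmDiff S₀ (U k))) univ (univ.erase i₀)
      (fun u v : ↥(S₀ ∪ W) => s u v) (fun (u : ↥(S₀ ∪ W)) l => s u (q l))
      (fun k (u : ↥(S₀ ∪ W)) => s u (q k)) (Pool.Agent.Y703.CQ.ext α) (fun _ => 0) (fun _ => 0)) = r k :=
    ⟨_, fun _ => Iff.rfl⟩
  have hreg : ∀ T : Finset ZI, T ⊆ S₀ ∪ W → T.Nonempty → 3 * (S₀ ∪ W).card + (R₀ + 2) ≤
      (univ.filter fun i => ∑ u ∈ T, s u (q i) ≠ 0).card := by
    intro T hT hTn
    have h1 := reg_L hRg.1 hT (fun _ => 1) (by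
      obtain ⟨u, hu⟩ := hTn
      intro h
      exact one_ne_zero (congrFun h ⟨u, hu⟩))
    have h2 : (univ.filter fun i => ∑ r : ↥T, (1 : ZMod 2) * vT T q i r ≠ 0) =
        univ.filter fun i => ∑ u ∈ T, s u (q i) ≠ 0 := by
      refine Finset.filter_congr fun i _ => ?_
      rw [← Finset.sum_coe_sort T (fun u => s u (q i))]
      simp only [one_mul]
      exact Iff.rfl
    rw [← h2]
    exact h1
  have h2 := hLA ↥(S₀ ∪ W) ι univ (univ.erase i₀) ⟨i₀, fun h => (Finset.ne_of_mem_erase h) rfl⟩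
    (fun k => pt (S₀ ∪ W) (symmDiff S₀ (U k))) (fun u v => s u v) (fun u l => s u (q l))
    (fun k u => s u (q k)) (fun _ _ => 0) (fun _ _ => 0)
    (fun u _ v _ => hS.symm u v (hS₁ u u.2) (hS₁ v v.2))
    (fun u _ k _ => rfl)
    (by
      intro w _ hw
      have hw0 : w ≠ 0 := by
        obtain ⟨u, hu⟩ := hw
        exact fun h => hu (congrFun h u)
      have h1 := reg_L hRg.1 (Finset.Subset.refl (S₀ ∪ W)) w hw0
      have h3 := herase fun i => ∑ r, w r * vT (S₀ ∪ W) q i r ≠ 0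
      have h4 : 0 < ((univ.erase i₀).filter fun i => ∑ r, w r * vT (S₀ ∪ W) q i r ≠ 0).card := by omega
      obtain ⟨k, hk⟩ := Finset.card_pos.1 h4
      exact ⟨k, (Finset.mem_filter.1 hk).1, (Finset.mem_filter.1 hk).2⟩)
    (by
      rw [hUc, Finset.card_erase_of_mem (Finset.mem_univ _), Finset.card_univ]
      omega)
    (by
      intro i j hij
      rw [hUc]
      have hT : symmDiff (U i) (U j) ⊆ S₀ ∪ W := by
        intro x hx
        rw [Finset.mem_symmDiff] at hx
        rcases hx with hx | hx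
        · exact Finset.mem_union_right _ (hUW i hx.1)
        · exact Finset.mem_union_right _ (hUW j hx.1)
      have hTn : (symmDiff (U i) (U j)).Nonempty := by
        rw [Finset.nonempty_iff_ne_empty]
        intro h
        have h5 : U i = U j := symmDiff_eq_bot.1 h
        exact hij (hUinj h5)
      have h1 := hreg _ hT hTn
      have h3 := herase fun k => ∑ u ∈ symmDiff (U i) (U j), s u (q k) ≠ 0
      have h4 : ((univ.erase i₀).filter fun k => ∑ u ∈ symmDiff (U i) (U j), s u (q k) ≠ 0) =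
          ((univ.erase i₀).filter fun k => ∑ u ∈ pt (S₀ ∪ W) (symmDiff S₀ (U i)), s u (q k) +
            ∑ u ∈ pt (S₀ ∪ W) (symmDiff S₀ (U j)), s u (q k) + 0 + 0 ≠ 0) := by
        refine Finset.filter_congr fun k _ => ?_
        rw [add_zero, add_zero, add_pt, sd_sd, sum_pt hT]
      rw [← h4]
      omega)
  have h3 : |((univ.filter fun α : prs ι → ZMod 2 => Q' (tq (univ.erase i₀) α)).card : ℝ) /
      2 ^ (prs ι).card - cR r| ≤ ε := by
    rw [share_eq, Finset.filter_congr fun α _ => hQ' α]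
    exact h2
  have hcR : cR r = ∏ k, al (r k) := by
    unfold cR
    refine Finset.prod_congr rfl fun k _ => ?_
    exact Q155.NL.al_cf (r k)
  have hpos : (0 : ℝ) < 2 ^ (prs ι).card := by positivity
  rw [hcR, abs_le] at h3
  have h4 := h3.1
  have h5 := h3.2
  refine ⟨fun α => Q' (tq (univ.erase i₀) α), fun α => Q' (tq (univ.erase i₀) α), ?_, ?_, ?_⟩
  · have h6 : ∏ k, al (r k) - ε ≤ ((univ.filter fun α : prs ι → ZMod 2 =>
      Q' (tq (univ.erase i₀) α)).card : ℝ) / 2 ^ (prs ι).card := by linarith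
    exact (le_div_iff₀ hpos).1 h6
  · have h6 : ((univ.filter fun α : prs ι → ZMod 2 =>
      Q' (tq (univ.erase i₀) α)).card : ℝ) / 2 ^ (prs ι).card ≤ ∏ k, al (r k) + ε := by linarith
    exact (div_le_iff₀ hpos).1 h6
  · intro p htp hl
    have key : Q' (tq (univ.erase i₀) (tb p)) ↔ ∀ k, bb (symmDiff (S₀ ∪ univ.image p) (U k)) = r k := by
      rw [hQ']
      refine forall_congr' fun k => ?_
      have hx : ∀ i l : ι, i ≠ l → xt (tb p) i l + xt (tb p) l i = s (p i) (p l) := fun i l hil =>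
        xt_add (fun i l => s (p i) (p l)) (fun i l => hS.symm _ _ (htp.2 i).1 (htp.2 l).1) hil
      have hE : ∀ a b : ι, a ≠ i₀ → a ≠ b →
          Pool.Agent.Y703.CQ.ext (tq (univ.erase i₀) (tb p)) a b = s (p a) (p b) := by
        intro a b ha hab
        have haJ : a ∈ univ.erase i₀ := Finset.mem_erase.2 ⟨ha, Finset.mem_univ _⟩
        unfold Pool.Agent.Y703.CQ.ext
        by_cases h6 : (a, b) ∈ Pool.Agent.Y703.CQ.prs (univ.erase i₀)
        · rw [dif_pos h6]
          exact hx a b hab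
        · rw [dif_neg h6]
          have h7 : (b, a) ∈ Pool.Agent.Y703.CQ.prs (univ.erase i₀) := by
            rw [mem_prsC] at h6 ⊢
            have h8 : b ∈ univ.erase i₀ ∧ ¬ a < b := by
              by_contra hcon
              refine h6 ⟨haJ, Ne.symm hab, fun hb => ?_⟩
              by_contra hlt
              exact hcon ⟨hb, hlt⟩
            exact ⟨h8.1, hab, fun _ => lt_of_le_of_ne (not_lt.1 h8.2) (Ne.symm hab)⟩
          rw [dif_pos ⟨h7, haJ⟩]
          show xt (tb p) b a + xt (tb p) a b = s (p a) (p b)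
          rw [add_comm]
          exact hx a b hab
      have hP : ∀ x ∈ univ.image p, x ∉ S₀ ∪ W := by
        intro x hx
        obtain ⟨i, -, rfl⟩ := Finset.mem_image.1 hx
        exact (htp.2 i).2
      have hlab : ∀ i, ∀ u : ↥(S₀ ∪ W), s u (p i) = s u (q i) := fun i u =>
        congrFun (congrArg (fun z => z.1) (hl i)) u
      have e1 : (fun (u : ↥(S₀ ∪ W)) l => s u (q l)) = fun (u : ↥(S₀ ∪ W)) l => s u (p l) :=
        funext fun u => funext fun l => (hlab l u).symm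
      have e2 : (fun l (u : ↥(S₀ ∪ W)) => s u (q l)) = fun l (u : ↥(S₀ ∪ W)) => s u (p l) :=
        funext fun l => funext fun u => (hlab l u).symm
      rw [sd_union (hUW k) hP, bb_KM hS (sd_sub (hUW k)) hS₁ htp i₀
        (J1 := univ.erase i₀) (fun k => ⟨fun h => Finset.ne_of_mem_erase h,
          fun h => Finset.mem_erase.2 ⟨h, Finset.mem_univ _⟩⟩) hE, e1, e2]
    exact ⟨key.1, key.2⟩

end Pool.Agent.Q175.GN
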