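import Pool.Agent.Q175.GN.Bs

/-!
# Project GN, job LQ: the law over the divisors holds for most tables
-/

set_option autoImplicit false
set_option linter.unusedVariables false

namespace Pool.Agent.Q175.GN

open Finset Filter Topology
open H385 (ZI nrm)
open Pool.Agent.Y699 (PP)
open Q155.GN
open Q155.KT (kz z2_all z2_dbl)
open Q155.KG (Lm FI al lm_FI al_nonneg al_le avg_sq_le)
open Q155.NL (NU NU_11 NU_12 NU_21 NU_22 avg_swap)
open Pool.Agent.Q1.PT (avg avg_equiv avg_prod avg_mono avg_const avg_add avg_sub abs_avg avg_hom)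
open scoped Classical

theorem FI_al' (b z : ℕ) : |FI b z - al b| ≤ 1 := by
  have h1 := al_nonneg b
  have h2 : al b ≤ 1 := by
    refine (al_le b).trans ?_
    rw [div_le_one (by positivity)]
    exact one_le_pow₀ (by norm_num)
  unfold FI
  split_ifs <;> rw [abs_le] <;> constructor <;> linarith

theorem pow_bd' {s R n : ℕ} (h : 12 * s + R ≤ n) : (7 / 8 : ℝ) ^ n * 4 ^ s ≤ (7 / 8) ^ R := by
  have h1 : (7 / 8 : ℝ) ^ n ≤ (7 / 8) ^ (12 * s + R) :=
    pow_le_pow_of_le_one (by norm_num) (by norm_num) h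
  have h2 : (7 / 8 : ℝ) ^ (12 * s + R) * 4 ^ s = ((7 / 8) ^ 12 * 4) ^ s * (7 / 8) ^ R := by
    rw [pow_add, pow_mul, mul_pow]
    ring
  have h3 : ((7 / 8 : ℝ) ^ 12 * 4) ^ s ≤ 1 := pow_le_one₀ (by positivity) (by norm_num)
  calc (7 / 8 : ℝ) ^ n * 4 ^ s ≤ (7 / 8) ^ (12 * s + R) * 4 ^ s :=
        mul_le_mul_of_nonneg_right h1 (by positivity)
    _ = ((7 / 8) ^ 12 * 4) ^ s * (7 / 8) ^ R := h2
    _ ≤ 1 * (7 / 8) ^ R := mul_le_mul_of_nonneg_right h3 (by positivity)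
    _ = _ := one_mul _

theorem bd_two {t s R L c : ℕ} (ht : t ≤ s) (hL : 12 * s + R ≤ L) (hc : 12 * s + R ≤ c) :
    (2 : ℝ) ^ (t + 3) * ((3 / 4) ^ L + (7 / 8) ^ c) ≤ 64 * (7 / 8) ^ R ∧
    (2 : ℝ) ^ (2 * t + 5) * ((3 / 4) ^ L + (7 / 8) ^ c) ≤ 64 * (7 / 8) ^ R := by
  have h34 : (3 / 4 : ℝ) ^ L ≤ (7 / 8) ^ L := pow_le_pow_left₀ (by norm_num) (by norm_num) L
  have h1 := pow_bd' hL
  have h2 := pow_bd' hc
  have h4t : (2 : ℝ) ^ (2 * t + 5) ≤ 32 * 4 ^ s := by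
    have e : (2 : ℝ) ^ (2 * t + 5) = 32 * 4 ^ t := by rw [pow_add, pow_mul]; norm_num; ring
    rw [e]
    have := pow_le_pow_right₀ (show (1 : ℝ) ≤ 4 by norm_num) ht
    linarith
  have h3t : (2 : ℝ) ^ (t + 3) ≤ 2 ^ (2 * t + 5) := pow_le_pow_right₀ (by norm_num) (by omega)
  have p0 : (0 : ℝ) ≤ (3 / 4) ^ L + (7 / 8) ^ c := by positivity
  have h5 : (2 : ℝ) ^ (2 * t + 5) * ((3 / 4) ^ L + (7 / 8) ^ c) ≤ 64 * (7 / 8) ^ R := by
    calc (2 : ℝ) ^ (2 * t + 5) * ((3 / 4) ^ L + (7 / 8) ^ c)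
        ≤ (32 * 4 ^ s) * ((7 / 8) ^ L + (7 / 8) ^ c) :=
          mul_le_mul h4t (by linarith) p0 (by positivity)
      _ = 32 * ((7 / 8) ^ L * 4 ^ s + (7 / 8) ^ c * 4 ^ s) := by ring
      _ ≤ 64 * (7 / 8) ^ R := by linarith
  exact ⟨(mul_le_mul_of_nonneg_right h3t p0).trans h5, h5⟩

section
variable {ι : Type} [Fintype ι]

/-- the subsets of the union -/
noncomputable def eqP {S₀ : Finset ZI} {p : ι → ZI} (hp : Function.Injective p) (hd : ∀ i, p i ∉ S₀) :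
    ↥S₀.powerset × Finset ι ≃ ↥(S₀ ∪ univ.image p).powerset where
  toFun w := ⟨(w.1 : Finset ZI) ∪ w.2.image p, Finset.mem_powerset.2 (Finset.union_subset_union
    (Finset.mem_powerset.1 w.1.2) (Finset.image_subset_image (Finset.subset_univ _)))⟩
  invFun d := (⟨(d : Finset ZI) ∩ S₀, Finset.mem_powerset.2 Finset.inter_subset_right⟩,
    univ.filter fun i => p i ∈ (d : Finset ZI))
  left_inv := by
    rintro ⟨⟨d, hd'⟩, U⟩
    have hd1 : d ⊆ S₀ := Finset.mem_powerset.1 hd'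
    refine Prod.ext (Subtype.ext ?_) ?_
    · ext x
      simp only [Finset.mem_inter, Finset.mem_union, Finset.mem_image]
      constructor
      · rintro ⟨h | ⟨i, _, rfl⟩, h2⟩
        · exact h
        · exact absurd h2 (hd i)
      · exact fun h => ⟨Or.inl h, hd1 h⟩
    · ext i
      simp only [Finset.mem_filter, Finset.mem_univ, true_and, Finset.mem_union, Finset.mem_image]
      constructor
      · rintro (h | ⟨j, hj, hji⟩)
        · exact absurd (hd1 h) (hd i)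
        · exact hp hji ▸ hj
      · exact fun h => Or.inr ⟨i, h, rfl⟩
  right_inv := by
    rintro ⟨d, hd'⟩
    have hd1 : d ⊆ S₀ ∪ univ.image p := Finset.mem_powerset.1 hd'
    refine Subtype.ext ?_
    ext x
    simp only [Finset.mem_union, Finset.mem_inter, Finset.mem_image, Finset.mem_filter,
      Finset.mem_univ, true_and]
    constructor
    · rintro (h | ⟨i, hi, rfl⟩)
      · exact h.1
      · exact hi
    · intro h
      rcases Finset.mem_union.1 (hd1 h) with h1 | h1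
      · exact Or.inl ⟨h, h1⟩
      · obtain ⟨i, -, rfl⟩ := Finset.mem_image.1 h1
        exact Or.inr ⟨i, h, rfl⟩

theorem lawC_congr {I J : Type} [Fintype I] [Fintype J] (E : I ≃ J) {cl : J → ZMod 4} {K : J → ℕ}
    {cl' : I → ZMod 4} {K' : I → ℕ} (hc : ∀ i, cl (E i) = cl' i) (h : ∀ i, K (E i) = K' i) (ε : ℝ) :
    LawC cl' K' ε ↔ LawC cl K ε := by
  have h1 : ∀ g : ZMod 4 → ℕ → ℝ, avg (fun i => g (cl' i) (K' i)) = avg (fun j => g (cl j) (K j)) := by
    intro g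
    rw [← avg_equiv E (fun j => g (cl j) (K j))]
    simp_rw [h, hc]
  unfold LawC
  have h2 : ∀ c, avg (fun i => if cl' i = c then (1 : ℝ) else 0) = avg (fun j => if cl j = c then (1 : ℝ) else 0) :=
    fun c => h1 fun a _ => if a = c then (1 : ℝ) else 0
  have h3 : ∀ c b, avg (fun i => (if cl' i = c then (1 : ℝ) else 0) * FI b (K' i)) =
      avg (fun j => (if cl j = c then (1 : ℝ) else 0) * FI b (K j)) :=
    fun c b => h1 fun a k => (if a = c then (1 : ℝ) else 0) * FI b k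
  have h4 : ∀ c, avg (fun i => (if cl' i = c then (1 : ℝ) else 0) * (K' i : ℝ)) =
      avg (fun j => (if cl j = c then (1 : ℝ) else 0) * (K j : ℝ)) :=
    fun c => h1 fun a k => (if a = c then (1 : ℝ) else 0) * (k : ℝ)
  constructor
  · intro H c
    obtain ⟨a1, a2, a3⟩ := H c
    rw [h2] at a1
    rw [h4] at a3
    exact ⟨a1, fun b => by rw [← h3]; exact a2 b, a3⟩
  · intro H c
    obtain ⟨a1, a2, a3⟩ := H c
    rw [← h2] at a1
    rw [← h4] at a3
    exact ⟨a1, fun b => by rw [h3]; exact a2 b, a3⟩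

/-- the table of the sizes of the kernels -/
noncomputable def Kt (U₀ S₀ : Finset ZI) (q : ι → ZI) (X : ι → ι → ZMod 2) (w : ↥S₀.powerset × Finset ι) : ℕ :=
  hv (KF (mT (symmDiff (w.1 : Finset ZI) U₀)) (vT (symmDiff (w.1 : Finset ZI) U₀) q) w.2 X)

/-- the class -/
noncomputable def cT (U₀ S₀ : Finset ZI) (q : ι → ZI) (w : ↥S₀.powerset × Finset ι) : ZMod 4 :=
  ∑ π ∈ symmDiff (w.1 : Finset ZI) U₀, fc π + ∑ i ∈ w.2, fc (q i)

variable {U₀ W S₀ : Finset ZI} {p q : ι → ZI}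

theorem Kt_congr {X X' : ι → ι → ZMod 2} (h : ∀ i l, X i l + X l i = X' i l + X' l i) :
    Kt U₀ S₀ q X = Kt U₀ S₀ q X' := by
  funext w
  unfold Kt KF
  congr 2
  ext a b
  rcases a with u | i <;> rcases b with u' | i'
  · rw [NU_11, NU_11]
  · rw [NU_12, NU_12]
  · rw [NU_21, NU_21]
  · rw [NU_22, NU_22]
    rw [h i i', Finset.sum_congr rfl fun l _ => h i l]

theorem Kt_lab (hU : U₀ ⊆ W) (hl : ∀ i, lb (S₀ ∪ W) (p i) = lb (S₀ ∪ W) (q i))
    (X : ι → ι → ZMod 2) : Kt U₀ S₀ p X = Kt U₀ S₀ q X := by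
  funext w
  have hT : symmDiff (w.1 : Finset ZI) U₀ ⊆ S₀ ∪ W :=
    (sd_sub hU).trans (Finset.union_subset_union_left (Finset.mem_powerset.1 w.1.2))
  have h1 : ∀ i, ∀ u ∈ S₀ ∪ W, s u (p i) = s u (q i) := fun i u hu =>
    congrFun (congrArg (fun z => z.1) (hl i)) (⟨u, hu⟩ : ↥(S₀ ∪ W))
  have h3 : vT (symmDiff (w.1 : Finset ZI) U₀) p = vT (symmDiff (w.1 : Finset ZI) U₀) q := by
    funext i u
    exact h1 i u (hT u.2)
  unfold Kt
  rw [h3]

theorem cT_lab (hl : ∀ i, lb (S₀ ∪ W) (p i) = lb (S₀ ∪ W) (q i)) :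
    cT (ι := ι) U₀ S₀ p = cT U₀ S₀ q := by
  funext w
  unfold cT
  rw [Finset.sum_congr rfl fun i _ => show fc (p i) = fc (q i) from congrArg (fun z => z.2) (hl i)]

/-- the kernels of the divisors -/
theorem KS_eq (hS : SymP) (htab : S_TAB) (hU : U₀ ⊆ W) (hW : ∀ u ∈ W, PP u) (hS₀ : ∀ u ∈ S₀, PP u)
    (ht : Tu (S₀ ∪ W) p) {X : ι → ι → ZMod 2}
    (hX : ∀ i l, i ≠ l → X i l + X l i = s (p i) (p l)) (ε : ℝ) :
    LawC (cT U₀ S₀ p) (Kt U₀ S₀ p X) ε ↔ LawD U₀ ε (S₀ ∪ univ.image p) := by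
  obtain ⟨hp, h⟩ := ht
  have hd : ∀ i, p i ∉ S₀ := fun i hi => (h i).2 (Finset.mem_union_left _ hi)
  have hsd : ∀ w : ↥S₀.powerset × Finset ι,
      symmDiff ((w.1 : Finset ZI) ∪ w.2.image p) U₀ = symmDiff (w.1 : Finset ZI) U₀ ∪ w.2.image p := by
    intro w
    refine sd_union hU fun x hx hx' => ?_
    obtain ⟨i, -, rfl⟩ := Finset.mem_image.1 hx
    exact (h i).2 (Finset.union_subset_union_left (Finset.mem_powerset.1 w.1.2) hx')
  have hT : ∀ w : ↥S₀.powerset × Finset ι, symmDiff (w.1 : Finset ZI) U₀ ⊆ S₀ ∪ W := fun w =>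
    (sd_sub hU).trans (Finset.union_subset_union_left (Finset.mem_powerset.1 w.1.2))
  refine lawC_congr (eqP hp hd) (fun w => ?_) (fun w => ?_) ε
  · show ∑ π ∈ symmDiff ((w.1 : Finset ZI) ∪ w.2.image p) U₀, fc π = cT U₀ S₀ p w
    rw [hsd, Finset.sum_union, Finset.sum_image fun a _ b _ hab => hp hab]
    · rfl
    · rw [Finset.disjoint_left]
      intro x hx hx'
      obtain ⟨i, -, rfl⟩ := Finset.mem_image.1 hx'
      exact (h i).2 (hT w hx)
  · show 2 ^ bb (symmDiff ((w.1 : Finset ZI) ∪ w.2.image p) U₀) = Kt U₀ S₀ p X w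
    rw [hsd]
    exact (htab hS ι (S₀ ∪ W) (symmDiff (w.1 : Finset ZI) U₀) p w.2 X
      (fun u hu => by
        rcases Finset.mem_union.1 (hT w hu) with h1 | h1
        · exact hS₀ u h1
        · exact hW u h1) (hT w) ⟨hp, h⟩ hX).2

end

section
variable {ι : Type} [Fintype ι] [LinearOrder ι] {U₀ W S₀ : Finset ZI} {p q : ι → ZI}

/-- the mean over the tables is the mean over the matrices -/
theorem avg_tab (h : (↥S₀.powerset × Finset ι → ℕ) → ℝ) :
    avg (fun α : prs ι → ZMod 2 => h (Kt U₀ S₀ q (xt α))) =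
      aX (fun x : ι → ι → ZMod 2 => h (Kt U₀ S₀ q x)) := by
  rw [← avg_hom (φp ι) φp_surj (fun α => h (Kt U₀ S₀ q (xt α)))]
  have h1 : (fun x : ι → ι → ZMod 2 => h (Kt U₀ S₀ q (xt (φp ι x)))) =
      fun x : ι → ι → ZMod 2 => h (Kt U₀ S₀ q x) := by
    funext x
    congr 1
    refine Kt_congr fun i l => ?_
    by_cases hil : i = l
    · subst hil
      rw [z2_dbl, z2_dbl]
    · exact xt_add (fun i l => x i l + x l i) (fun _ _ => add_comm _ _) hil
  rw [h1]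
  exact avg_inst' _ _ _

end

section
variable {ι : Type} [Fintype ι] {U₀ W S₀ : Finset ZI} {q : ι → ZI}

/-- the classes -/
theorem cls_x (hcls : S_CLS) {R : ℕ} (hR : Rg 12 R W S₀ (univ.image q)) (c : ZMod 4) :
    |avg (fun w : ↥S₀.powerset × Finset ι => if cT U₀ S₀ q w = c then (1 : ℝ) else 0) - 1 / 4| ≤
      64 * (7 / 8) ^ R := by
  have hne : Nonempty ↥S₀.powerset := ⟨⟨∅, Finset.empty_mem_powerset S₀⟩⟩
  rw [avg_prod]
  have h1 : avg (fun d : ↥S₀.powerset => avg fun U : Finset ι =>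
      if cT U₀ S₀ q (d, U) = c then (1 : ℝ) else 0) - 1 / 4 =
      avg fun d : ↥S₀.powerset => (avg fun U : Finset ι =>
        if cT U₀ S₀ q (d, U) = c then (1 : ℝ) else 0) - 1 / 4 := by
    rw [avg_sub, avg_const]
  rw [h1]
  refine (abs_avg _).trans ?_
  have h2 : ∀ d : ↥S₀.powerset, |(avg fun U : Finset ι =>
        if cT U₀ S₀ q (d, U) = c then (1 : ℝ) else 0) - 1 / 4| ≤ 64 * (7 / 8) ^ R := by
    intro d
    have h3 := hcls ι (fun i => fc (q i)) (∑ π ∈ symmDiff (d : Finset ZI) U₀, fc π) c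
    refine (show |(avg fun U : Finset ι => if cT U₀ S₀ q (d, U) = c then (1 : ℝ) else 0) - 1 / 4| ≤
      (3 / 4) ^ (univ.filter fun i => fc (q i) = 1 ∨ fc (q i) = 3).card from h3).trans ?_
    have h4 := reg_odd hR.2
    have h5 : (3 / 4 : ℝ) ^ (univ.filter fun i => fc (q i) = 1 ∨ fc (q i) = 3).card ≤ (3 / 4) ^ R :=
      pow_le_pow_of_le_one (by norm_num) (by norm_num) (by omega)
    have h6 : (3 / 4 : ℝ) ^ R ≤ (7 / 8) ^ R := pow_le_pow_left₀ (by norm_num) (by norm_num) R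
    have h7 : (0 : ℝ) < (7 / 8) ^ R := by positivity
    linarith
  refine (avg_mono h2).trans (le_of_eq ?_)
  rw [avg_const]

/-- the second moment of the shares over the matrices -/
theorem sec_x (hS : SymP) (hroot : S_ROOT) (hsec : S_SEC) (hU : U₀ ⊆ W) (hT0 : ∀ u ∈ S₀ ∪ W, PP u) {R : ℕ}
    (hR : Rg 12 R W S₀ (univ.image q)) (b : ℕ) (c : ZMod 4) :
    aX (fun x : ι → ι → ZMod 2 =>
      (avg (fun w : ↥S₀.powerset × Finset ι => (if cT U₀ S₀ q w = c then (1 : ℝ) else 0) *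
        (FI b (Kt U₀ S₀ q x w) - al b))) ^ 2) ≤ 64 * (7 / 8) ^ R := by
  unfold aX
  have hne : Nonempty ↥S₀.powerset := ⟨⟨∅, Finset.empty_mem_powerset S₀⟩⟩
  have h1 : ∀ x : ι → ι → ZMod 2,
      (avg (fun w : ↥S₀.powerset × Finset ι => (if cT U₀ S₀ q w = c then (1 : ℝ) else 0) *
        (FI b (Kt U₀ S₀ q x w) - al b))) ^ 2 ≤
      avg fun d : ↥S₀.powerset => avg (fun U : Finset ι => (if cT U₀ S₀ q (d, U) = c then (1 : ℝ) else 0) *
        (FI b (Kt U₀ S₀ q x (d, U)) - al b)) ^ 2 := by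
    intro x
    rw [avg_prod]
    exact avg_sq_le _
  refine (avg_mono h1).trans ?_
  rw [avg_swap]
  have h3 : ∀ d : ↥S₀.powerset, avg (fun x : ι → ι → ZMod 2 =>
      avg (fun U : Finset ι => (if cT U₀ S₀ q (d, U) = c then (1 : ℝ) else 0) *
        (FI b (Kt U₀ S₀ q x (d, U)) - al b)) ^ 2) ≤ 64 * (7 / 8) ^ R := by
    intro d
    have hT : symmDiff (d : Finset ZI) U₀ ⊆ S₀ ∪ W :=
      (sd_sub hU).trans (Finset.union_subset_union_left (Finset.mem_powerset.1 d.2))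
    have k1 := hsec hroot ↥(symmDiff (d : Finset ZI) U₀) ι (mT (symmDiff (d : Finset ZI) U₀))
      (vT (symmDiff (d : Finset ZI) U₀) q) (mT_symm hS fun u hu => hT0 u (hT hu))
      (12 * (S₀ ∪ W).card + R) (reg_L hR.1 hT) (FI b) (al b) (lm_FI b) (FI_al' b)
      (fun U => if cT U₀ S₀ q (d, U) = c then (1 : ℝ) else 0) (fun U => by split_ifs <;> norm_num)
    refine (show avg (fun x : ι → ι → ZMod 2 =>
      avg (fun U : Finset ι => (if cT U₀ S₀ q (d, U) = c then (1 : ℝ) else 0) *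
        (FI b (Kt U₀ S₀ q x (d, U)) - al b)) ^ 2) ≤ _ from k1).trans ?_
    refine (bd_two ?_ le_rfl ?_).1
    · rw [Fintype.card_coe]
      exact Finset.card_le_card hT
    · exact (reg_odd hR.2).trans (Finset.card_le_univ _)
  refine (avg_mono h3).trans (le_of_eq ?_)
  rw [avg_const]

/-- the mean over the matrices -/
theorem fst_x (hS : SymP) (hroot : S_ROOT) (hfst : S_FST) (hU : U₀ ⊆ W) (hT0 : ∀ u ∈ S₀ ∪ W, PP u) {R : ℕ}
    (hR : Rg 12 R W S₀ (univ.image q)) :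
    aX (fun x : ι → ι → ZMod 2 =>
      avg (fun w : ↥S₀.powerset × Finset ι => (Kt U₀ S₀ q x w : ℝ))) ≤ 2 + 64 * (7 / 8) ^ R := by
  unfold aX
  have hne : Nonempty ↥S₀.powerset := ⟨⟨∅, Finset.empty_mem_powerset S₀⟩⟩
  have h0 : ∀ x : ι → ι → ZMod 2,
      avg (fun w : ↥S₀.powerset × Finset ι => (Kt U₀ S₀ q x w : ℝ)) =
      avg fun d : ↥S₀.powerset => avg (fun U : Finset ι => (Kt U₀ S₀ q x (d, U) : ℝ)) :=
    fun x => avg_prod _
  simp_rw [h0]
  rw [avg_swap]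
  have h3 : ∀ d : ↥S₀.powerset, avg (fun x : ι → ι → ZMod 2 => avg (fun U : Finset ι =>
      (Kt U₀ S₀ q x (d, U) : ℝ))) ≤ 2 + 64 * (7 / 8) ^ R := by
    intro d
    have hT : symmDiff (d : Finset ZI) U₀ ⊆ S₀ ∪ W :=
      (sd_sub hU).trans (Finset.union_subset_union_left (Finset.mem_powerset.1 d.2))
    have k1 := hfst hroot ↥(symmDiff (d : Finset ZI) U₀) ι (mT (symmDiff (d : Finset ZI) U₀))
      (vT (symmDiff (d : Finset ZI) U₀) q) (mT_symm hS fun u hu => hT0 u (hT hu))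
      (12 * (S₀ ∪ W).card + R) (reg_L hR.1 hT)
    refine (show avg (fun x : ι → ι → ZMod 2 => avg (fun U : Finset ι =>
      (Kt U₀ S₀ q x (d, U) : ℝ))) ≤ _ from k1).trans ?_
    have := (bd_two (t := Fintype.card ↥(symmDiff (d : Finset ZI) U₀)) (s := (S₀ ∪ W).card) (R := R)
      (L := 12 * (S₀ ∪ W).card + R) (c := Fintype.card ι) (by
        rw [Fintype.card_coe]
        exact Finset.card_le_card hT) le_rfl ((reg_odd hR.2).trans (Finset.card_le_univ _))).2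
    linarith
  refine (avg_mono h3).trans (le_of_eq ?_)
  rw [avg_const]

end

/-- **JOB GN-LQ** -/
theorem lq : S_LQ := by
  intro hS hroot hsec hfst habs hcls htab κ V U₀ W hU hW ε hε
  obtain ⟨η, hη, h⟩ := habs ε ε hε hε
  have h1 : Tendsto (fun R : ℕ => (64 : ℝ) * (7 / 8) ^ R) atTop (𝓝 0) := by
    have := (tendsto_pow_atTop_nhds_zero_of_lt_one (by norm_num : (0 : ℝ) ≤ 7 / 8)
      (by norm_num : (7 / 8 : ℝ) < 1)).const_mul (64 : ℝ)
    rwa [mul_zero] at this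
  obtain ⟨R, hR⟩ := (h1.eventually (gt_mem_nhds hη)).exists
  refine ⟨12, R, ?_⟩
  intro ι _ _ S₀ q hS₀ ht hN
  have hne : Nonempty ↥S₀.powerset := ⟨⟨∅, Finset.empty_mem_powerset S₀⟩⟩
  have hT0 : ∀ u ∈ S₀ ∪ W, PP u := by
    intro u hu
    rcases Finset.mem_union.1 hu with h1 | h1
    · exact hS₀ u h1
    · exact hW u h1
  have hRg : Rg 12 R W S₀ (univ.image q) := hN.2
  have hcard : Fintype.card (prs ι → ZMod 2) = 2 ^ (prs ι).card := by
    rw [Fintype.card_fun, ZMod.card, Fintype.card_coe]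
  refine ⟨fun α => LawC (cT U₀ S₀ q) (Kt U₀ S₀ q (xt α)) ε, fun _ => True, ?_, ?_, ?_⟩
  · have h4 : ∀ c, |avg (fun w : ↥S₀.powerset × Finset ι => if cT U₀ S₀ q w = c then (1 : ℝ) else 0) - 1 / 4| ≤ η :=
      fun c => (cls_x hcls hRg c).trans hR.le
    have h5 : ∀ (b : ℕ) (c : ZMod 4), avg (fun α : prs ι → ZMod 2 =>
        (avg fun w : ↥S₀.powerset × Finset ι => (if cT U₀ S₀ q w = c then (1 : ℝ) else 0) *
          (FI b (Kt U₀ S₀ q (xt α) w) - al b)) ^ 2) ≤ η := by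
      intro b c
      refine le_trans (le_of_eq ?_) ((sec_x hS hroot hsec hU hT0 hRg b c).trans hR.le)
      exact avg_tab (fun K : ↥S₀.powerset × Finset ι → ℕ =>
        (avg fun w : ↥S₀.powerset × Finset ι => (if cT U₀ S₀ q w = c then (1 : ℝ) else 0) *
          (FI b (K w) - al b)) ^ 2)
    have h6 : avg (fun α : prs ι → ZMod 2 => avg fun w : ↥S₀.powerset × Finset ι =>
        (Kt U₀ S₀ q (xt α) w : ℝ)) ≤ 2 + η := by
      refine le_trans (le_of_eq ?_) ((fst_x hS hroot hfst hU hT0 hRg).trans (by linarith))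
      exact avg_tab (fun K : ↥S₀.powerset × Finset ι → ℕ => avg (fun w => (K w : ℝ)))
    have h2 := h (prs ι → ZMod 2) (↥S₀.powerset × Finset ι) (cT U₀ S₀ q)
      (fun α => Kt U₀ S₀ q (xt α)) h4 h5 h6
    rw [hcard] at h2
    have h3 := Finset.card_filter_add_card_filter_not (s := (univ : Finset (prs ι → ZMod 2)))
      (fun α => LawC (cT U₀ S₀ q) (Kt U₀ S₀ q (xt α)) ε)
    rw [Finset.card_univ, hcard] at h3
    have h3' : ((univ.filter fun α : prs ι → ZMod 2 => LawC (cT U₀ S₀ q) (Kt U₀ S₀ q (xt α)) ε).card : ℝ) +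
        ((univ.filter fun α : prs ι → ZMod 2 => ¬ LawC (cT U₀ S₀ q) (Kt U₀ S₀ q (xt α)) ε).card : ℝ) =
        2 ^ (prs ι).card := by exact_mod_cast h3
    push_cast at h2
    linarith
  · have e1 : (2 : ℝ) ^ (prs ι).card ≤ (1 + ε) * 2 ^ (prs ι).card := by
      have : (0 : ℝ) < 2 ^ (prs ι).card := by positivity
      nlinarith
    refine le_trans ?_ e1
    have e2 : ∀ F : Finset (prs ι → ZMod 2), (F.card : ℝ) ≤ 2 ^ (prs ι).card := by
      intro F
      have := Finset.card_le_univ F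
      rw [hcard] at this
      exact_mod_cast this
    exact e2 _
  · intro p htp hl
    refine ⟨fun hQ => ?_, fun _ => trivial⟩
    have hQ' : LawC (cT U₀ S₀ q) (Kt U₀ S₀ q (xt (tb p))) ε := hQ
    rw [← Kt_lab hU hl, ← cT_lab (U₀ := U₀) hl] at hQ'
    refine (KS_eq hS htab hU hW hS₀ htp (fun i l hil => ?_) ε).1 hQ'
    exact xt_add (fun i l => s (p i) (p l))
      (fun i l => hS.symm _ _ (htp.2 i).1 (htp.2 l).1) hil

end Pool.Agent.Q175.GN
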